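import Pool.Agent.LE.StmtsH

/-!
# Squad LCH, row SML: null sets of energies
-/

set_option autoImplicit false

open MeasureTheory ProbabilityTheory Function Filter

open scoped ENNReal BigOperators InnerProductSpace Topology

noncomputable section

namespace Pool.Agent.LE.CH.H3

open Pool.Agent.Anderson Pool.Agent.Loc Pool.Agent.Mob Pool.Agent.Helper54.Bal

theorem sml (hAvu : AvuStmt) (hMew : MewStmt) : SmlStmt := by
  intro d σ Z hσ hZ
  have hex : ∀ k : ℕ, ∃ U : Set ℝ, Z ⊆ U ∧ IsOpen U ∧ volume U ≤ (1 / 2) ^ k := by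
    intro k
    have h1 : volume Z < (1 / 2 : ℝ≥0∞) ^ k := by
      rw [hZ]
      exact ENNReal.pow_pos (by norm_num) k
    obtain ⟨U, hU1, hU2, hU3⟩ := Set.exists_isOpen_lt_of_lt Z _ h1
    exact ⟨U, hU1, hU2, hU3.le⟩
  choose U hZU hUo hUv using hex
  refine ⟨U, fun k => ⟨hUo k, hZU k⟩, ?_⟩
  have hη : ∀ m : ℕ, 0 < 1 / ((m : ℝ) + 1) := fun m => by positivity
  have hn : ∀ n : ℕ, ∀ᵐ V ∂(PP d (gl σ)), ∀ ε : ℝ, 0 < ε → ∃ k : ℕ, ∃ᶠ m : ℕ in atTop,
      ∑ x ∈ box (0 : Site d) n, wt V (U k) (1 / ((m : ℝ) + 1)) (del x) < ENNReal.ofReal ε := by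
    intro n
    obtain ⟨F, hF⟩ : ∃ F : ℕ → ℕ → (Site d → ℝ) → ℝ≥0∞, F = fun (k m : ℕ) V =>
      ∑ x ∈ box (0 : Site d) n, wt V (U k) (1 / ((m : ℝ) + 1)) (del x) := ⟨_, rfl⟩
    have hFm : ∀ k m, Measurable (F k m) := by
      intro k m
      rw [hF]
      exact Finset.measurable_sum _ fun x _ =>
        hMew d (U k) _ (del x) (hη m) (hUo k).measurableSet
    have hFi : ∀ k m, ∫⁻ V, F k m V ∂(PP d (gl σ)) ≤
        ((box (0 : Site d) n).card * ENNReal.ofReal (1 / |σ|)) * (1 / 2) ^ k := by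
      intro k m
      rw [hF]
      simp only []
      rw [lintegral_finset_sum _ fun x _ => hMew d (U k) _ (del x) (hη m) (hUo k).measurableSet]
      calc ∑ x ∈ box (0 : Site d) n,
            ∫⁻ V, wt V (U k) (1 / ((m : ℝ) + 1)) (del x) ∂(PP d (gl σ))
          ≤ ∑ x ∈ box (0 : Site d) n, ENNReal.ofReal (1 / |σ|) * volume (U k) :=
            Finset.sum_le_sum fun x _ => hAvu d σ _ (U k) x hσ (hη m) (hUo k).measurableSet
        _ = ((box (0 : Site d) n).card * ENNReal.ofReal (1 / |σ|)) * volume (U k) := by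
            rw [Finset.sum_const, nsmul_eq_mul, mul_assoc]
        _ ≤ _ := by gcongr; exact hUv k
    obtain ⟨L, hL⟩ : ∃ L : ℕ → (Site d → ℝ) → ℝ≥0∞, L = fun k V =>
      liminf (fun m => F k m V) atTop := ⟨_, rfl⟩
    have hLm : ∀ k, Measurable (L k) := by
      intro k
      rw [hL]
      exact Measurable.liminf fun m => hFm k m
    have hLi : ∀ k, ∫⁻ V, L k V ∂(PP d (gl σ)) ≤
        ((box (0 : Site d) n).card * ENNReal.ofReal (1 / |σ|)) * (1 / 2) ^ k := by
      intro k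
      rw [hL]
      refine (lintegral_liminf_le fun m => hFm k m).trans ?_
      refine liminf_le_of_le ?_ ?_
      · isBoundedDefault
      · intro b hb
        obtain ⟨m, hm⟩ := hb.exists
        exact hm.trans (hFi k m)
    have hsum : ∫⁻ V, ∑' k, L k V ∂(PP d (gl σ)) ≠ ⊤ := by
      rw [lintegral_tsum fun k => (hLm k).aemeasurable]
      refine ne_top_of_le_ne_top ?_ (ENNReal.tsum_le_tsum hLi)
      rw [ENNReal.tsum_mul_left]
      refine ENNReal.mul_ne_top (ENNReal.mul_ne_top (ENNReal.natCast_ne_top _)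
        ENNReal.ofReal_ne_top) ?_
      rw [ENNReal.tsum_geometric]
      refine ENNReal.inv_ne_top.2 ?_
      rw [one_div]
      have : (1 : ℝ≥0∞) - 2⁻¹ = 2⁻¹ := ENNReal.one_sub_inv_two
      rw [this]
      exact ENNReal.inv_ne_zero.2 ENNReal.ofNat_ne_top
    filter_upwards [ae_lt_top (Measurable.tsum hLm) hsum] with V hV
    intro ε hε
    have h1 := ENNReal.tendsto_atTop_zero_of_tsum_ne_top hV.ne
    have h2 : ∀ᶠ k in atTop, L k V < ENNReal.ofReal ε :=
      h1.eventually_lt_const (ENNReal.ofReal_pos.2 hε)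
    obtain ⟨k, hk⟩ := h2.exists
    refine ⟨k, ?_⟩
    rw [hL] at hk
    have h3 := frequently_lt_of_liminf_lt (by isBoundedDefault) hk
    rw [hF] at h3
    exact h3
  filter_upwards [ae_all_iff.2 hn] with V hV
  intro n ε hε
  exact hV n ε hε

end Pool.Agent.LE.CH.H3
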